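import Mathlib

/-! Project SA: Samuels' inequality and the asymptotic Erdos matching conjecture.
Definitions and exact statements of all parts. -/

set_option autoImplicit false

namespace Pool.Agent.W593.SA

/-! ### Two-point variables -/

/-- expectation of `φ Z`, where `Z` is the sum over `A` of independent variables that are `c j` with
probability `m j / c j` and `0` otherwise -/
noncomputable def Ex {ι : Type} [DecidableEq ι] (c m : ι → ℝ) (A : Finset ι) (φ : ℝ → ℝ) : ℝ :=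
  ∑ S ∈ A.powerset, (∏ j ∈ S, m j / c j) * (∏ j ∈ A \ S, (1 - m j / c j)) * φ (∑ j ∈ S, c j)

/-- `P(Z < t)` -/
noncomputable def U {ι : Type} [DecidableEq ι] (c m : ι → ℝ) (A : Finset ι) (t : ℝ) : ℝ :=
  Ex c m A (fun z => if z < t then 1 else 0)

/-- `E (t - Z)^+` -/
noncomputable def GG {ι : Type} [DecidableEq ι] (c m : ι → ℝ) (A : Finset ι) (t : ℝ) : ℝ :=
  Ex c m A (fun z => max (t - z) 0)

/-- KEY: one item is good -/
def S_KEY : Prop := ∀ (ι : Type) [DecidableEq ι] (c m : ι → ℝ) (A : Finset ι) (t : ℝ),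
  (∀ j, 0 ≤ m j ∧ m j < c j) → A.Nonempty →
  ∃ i ∈ A, (U c m (A.erase i) t - U c m A t) * GG c m (A.erase i) t ≤
    m i * (U c m (A.erase i) t) ^ 2

/-- FACTS -/
def S_FACTS : Prop := ∀ (ι : Type) [DecidableEq ι] (c m : ι → ℝ) (A : Finset ι) (t : ℝ),
  (∀ j, 0 ≤ m j ∧ m j < c j) → 0 < t →
  0 < U c m A t ∧ U c m A t ≤ 1 ∧ t - ∑ j ∈ A, m j ≤ GG c m A t ∧
    ∀ i ∈ A, U c m A t ≤ U c m (A.erase i) t ∧
      GG c m (A.erase i) t - m i * U c m (A.erase i) t ≤ GG c m A t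

/-- MON: `M * (-log (1 - x / (δ + M)))` is nondecreasing in `M` for `δ ≥ x` -/
def S_MON : Prop := ∀ (x δ M' M : ℝ), 0 < x → x ≤ δ → 0 ≤ M' → M' ≤ M →
  M * Real.log (1 - x / (δ + M)) ≤ M' * Real.log (1 - x / (δ + M'))

/-- STEP: one step of the recursion; `M` is the sum of the means of the items still to come -/
def S_STEP : Prop := ∀ (x m M u G u' G' : ℝ), 0 < x → 0 ≤ m → m ≤ x → m ≤ M →
  0 < u → u ≤ 1 → M + x ≤ G → 0 < u' → u' ≤ u → (u - u') * G ≤ m * u ^ 2 → G - m * u ≤ G' →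
  u * (1 - x * u / G) ^ (M / x) ≤ u' * (1 - x * u' / G') ^ ((M - m) / x)

/-- SAM1: the inequality for two-point variables with an atom at zero -/
def S_SAM1 : Prop := ∀ (ι : Type) [DecidableEq ι] (c m : ι → ℝ) (A : Finset ι) (t x : ℝ),
  0 < x → (∀ j, 0 ≤ m j ∧ m j < c j) → (∀ j, m j ≤ x) → ∑ j ∈ A, m j + x ≤ t →
  (1 - x / t) ^ ((∑ j ∈ A, m j) / x) ≤ U c m A t

/-- TWO: two-point variables with mean `x` and values `a j ≤ x < b j` -/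
def S_TWO : Prop := ∀ (k : ℕ) (x : ℝ) (a b : Fin k → ℝ), 0 < x → ((k : ℝ) + 1) * x ≤ 1 →
  (∀ j, 0 ≤ a j ∧ a j ≤ x ∧ x < b j) →
  (1 - x) ^ k ≤ ∑ S : Finset (Fin k), (∏ j ∈ S, (x - a j) / (b j - a j)) *
    (∏ j ∈ Sᶜ, (b j - x) / (b j - a j)) *
    (if ∑ j ∈ S, b j + ∑ j ∈ Sᶜ, a j < 1 then 1 else 0)

/-- GEN: the inequality for independent uniform choices from a weighted set -/
def S_GEN : Prop := ∀ (k : ℕ) (x : ℝ) (V : Type) [Fintype V] [DecidableEq V] (w : V → ℝ),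
  0 < x → ((k : ℝ) + 1) * x ≤ 1 → (∀ v, 0 ≤ w v) → ∑ v, w v ≤ x * Fintype.card V →
  ((1 - x) * Fintype.card V) ^ k ≤
    ((Finset.univ.filter (fun f : Fin k → V => ∑ j, w (f j) < 1)).card : ℝ)

/-! ### Fractional matchings -/

/-- `w` is a fractional matching of `F` -/
def FM {V : Type} [DecidableEq V] (F : Finset (Finset V)) (w : Finset V → ℝ) : Prop :=
  (∀ e, 0 ≤ w e) ∧ ∀ v : V, ∑ e ∈ F.filter (fun e => v ∈ e), w e ≤ 1

/-- LP: duality -/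
def S_LP : Prop := ∀ (V : Type) [Fintype V] [DecidableEq V] (F : Finset (Finset V)) (T : ℝ),
  0 < T → (∀ e ∈ F, e.Nonempty) → (∀ w, FM F w → ∑ e ∈ F, w e < T) →
  ∃ y : V → ℝ, (∀ v, 0 ≤ y v) ∧ ∑ v, y v < T ∧ ∀ e ∈ F, 1 ≤ ∑ v ∈ e, y v

/-- UP: the upper bound -/
def S_UP : Prop := ∀ (k n : ℕ) (x E T : ℝ), 2 ≤ k → 0 < x → ((k : ℝ) + 1) * x ≤ 1 → 0 ≤ E →
  0 < T → T ≤ x * n + E → ∀ F : Finset (Finset (Fin n)), (∀ e ∈ F, e.card = k) →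
  (∀ w, FM F w → ∑ e ∈ F, w e < T) →
  (F.card : ℝ) * (k.factorial : ℝ) ≤ (1 - (1 - x) ^ k) * (n : ℝ) ^ k +
    k * (k * (k + 1) * E + 1) * (n : ℝ) ^ (k - 1)

/-- LOW: the lower bound -/
def S_LOW : Prop := ∀ (k : ℕ) (x ε : ℝ), 2 ≤ k → 0 < x → x ≤ 1 → 0 < ε → ∃ N : ℕ, ∀ n : ℕ, N ≤ n →
  ∃ F : Finset (Finset (Fin n)), (∀ e ∈ F, e.card = k) ∧
    (∃ C : Finset (Fin n), C.card ≤ ⌊x * (n : ℝ)⌋₊ ∧ ∀ e ∈ F, ∃ v ∈ C, v ∈ e) ∧
    (1 - (1 - x) ^ k - ε) * (n.choose k : ℝ) ≤ (F.card : ℝ)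

/-- MAX -/
def S_MAX : Prop := ∀ (k : ℕ) (x : ℝ), 2 ≤ k → 0 < x → ((k : ℝ) + 1) * x ≤ 1 →
  ((k : ℝ) * x) ^ k ≤ 1 - (1 - x) ^ k

/-! ### Shifting and rounding -/

/-- shifted families -/
def Shifted {n : ℕ} (F : Finset (Finset (Fin n))) : Prop :=
  ∀ e ∈ F, ∀ i j : Fin n, i < j → j ∈ e → i ∉ e → insert i (e.erase j) ∈ F

/-- matching number at most `s` -/
def MatchLe {n : ℕ} (F : Finset (Finset (Fin n))) (s : ℕ) : Prop :=
  ∀ M : Finset (Finset (Fin n)), M ⊆ F →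
    (M : Set (Finset (Fin n))).PairwiseDisjoint id → M.card ≤ s

/-- SH1: one shift -/
def S_SH1 : Prop := ∀ (n k s : ℕ) (F : Finset (Finset (Fin n))) (i j : Fin n), i < j → 1 ≤ k →
  (∀ e ∈ F, e.card = k) → MatchLe F s →
  MatchLe (F.image (fun e => if j ∈ e ∧ i ∉ e ∧ insert i (e.erase j) ∉ F then
    insert i (e.erase j) else e)) s

/-- SHIFT -/
def S_SHIFT : Prop := ∀ (n k s : ℕ) (F : Finset (Finset (Fin n))), 1 ≤ k →
  (∀ e ∈ F, e.card = k) → MatchLe F s →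
  ∃ F' : Finset (Finset (Fin n)), F'.card = F.card ∧ (∀ e ∈ F', e.card = k) ∧ Shifted F' ∧
    MatchLe F' s

/-- DOM: shifted families are closed under coordinatewise domination -/
def S_DOM : Prop := ∀ (n k : ℕ) (F : Finset (Finset (Fin n))), Shifted F →
  ∀ g g' : Fin k → Fin n, StrictMono g → StrictMono g' → (∀ i, g' i ≤ g i) →
  Finset.univ.image g ∈ F → Finset.univ.image g' ∈ F

/-- ROUND: fractional matchings of a shifted family can be rounded -/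
def S_ROUND : Prop := ∀ (n k s b : ℕ) (F : Finset (Finset (Fin n))), 1 ≤ k → 1 ≤ b →
  (∀ e ∈ F, e.card = k) → Shifted F → MatchLe F s →
  ∀ w, FM F w → ∑ e ∈ F, w e ≤ (s : ℝ) + b + ((n / b + 1 : ℕ) : ℝ) ^ k

/-! ### Results -/

/-- fractional asymptotic Erdos matching conjecture up to `1 / (k + 1)` -/
def S_FRAC : Prop := ∀ k : ℕ, 2 ≤ k → ∀ x : ℝ, 0 < x → x ≤ 1 / ((k : ℝ) + 1) →
  ∀ ε : ℝ, 0 < ε → ∃ N : ℕ, ∀ n : ℕ, N ≤ n →
    (∀ F : Finset (Finset (Fin n)), (∀ e ∈ F, e.card = k) →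
      (∀ w : Finset (Fin n) → ℝ, (∀ e, 0 ≤ w e) →
          (∀ v : Fin n, ∑ e ∈ F.filter (fun e => v ∈ e), w e ≤ 1) →
          ∑ e ∈ F, w e < x * (n : ℝ) + 1) →
      (F.card : ℝ) ≤
        (max (1 - (1 - x) ^ k) (((k : ℝ) * x) ^ k) + ε) * (n.choose k : ℝ)) ∧
    (∃ F : Finset (Finset (Fin n)), (∀ e ∈ F, e.card = k) ∧
      (∀ w : Finset (Fin n) → ℝ, (∀ e, 0 ≤ w e) →
          (∀ v : Fin n, ∑ e ∈ F.filter (fun e => v ∈ e), w e ≤ 1) →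
          ∑ e ∈ F, w e < x * (n : ℝ) + 1) ∧
      (max (1 - (1 - x) ^ k) (((k : ℝ) * x) ^ k) - ε) * (n.choose k : ℝ) ≤
        (F.card : ℝ))

/-- asymptotic Erdos matching conjecture up to `1 / (k + 1)` -/
def S_EMC : Prop := ∀ k : ℕ, 2 ≤ k → ∀ x : ℝ, 0 < x → x ≤ 1 / ((k : ℝ) + 1) →
  Filter.Tendsto
    (fun n : ℕ =>
      ((sSup {c : ℕ | ∃ F : Finset (Finset (Fin n)), F.card = c ∧
          (∀ A ∈ F, A.card = k) ∧
          ∀ M : Finset (Finset (Fin n)), M ⊆ F →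
            (M : Set (Finset (Fin n))).PairwiseDisjoint id → M.card ≤ ⌊x * (n : ℝ)⌋₊} : ℕ) : ℝ)
        / ((n.choose k : ℕ) : ℝ))
    Filter.atTop
    (nhds (max (1 - (1 - x) ^ k) (((k : ℝ) * x) ^ k)))

end Pool.Agent.W593.SA
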